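import Mathlib
import Pool.Agent.N178.HW.StmB
import Pool.Agent.W437.HC.Lie

/-!
# Stable spaces are stable under the matrices which kill all invariant tensors
-/

set_option linter.unusedSectionVars false

namespace Pool.Agent.N134.HW

open Finset Matrix Pool.Agent.W437.HC Pool.Agent.V1168.GH Pool.Agent.N178.HW

noncomputable section

variable {B : Type} [Fintype B] [DecidableEq B] {κ : Type} [Fintype κ] [DecidableEq κ]

/-- The transposed action. -/
theorem sum_act_mul (X : Matrix B B ℂ) (f c : (κ → B) → ℂ) :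
    ∑ J, act X f J * c J = ∑ J, f J * act Xᵀ c J := by
  have h := ip_act Xᵀ (fun J => (starRingEnd ℂ) (f J)) c
  unfold ip at h
  have h1 : ∀ J, (starRingEnd ℂ) (act Xᵀᴴ (fun J => (starRingEnd ℂ) (f J)) J) = act X f J := by
    intro J
    unfold act
    simp only [map_sum, map_mul, Complex.conj_conj]
    refine sum_congr rfl fun k _ => sum_congr rfl fun j _ => ?_
    congr 1
    rw [conjTranspose_apply, transpose_apply]
    exact Complex.conj_conj _
  simp only [h1, Complex.conj_conj] at h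
  exact h

/-- The contraction of a tensor in the variables `κ ⊕ κ` with a tensor. -/
def con (σ : (κ ⊕ κ → B) → ℂ) (c : (κ → B) → ℂ) : (κ → B) → ℂ :=
  fun I => ∑ J, σ (Sum.elim J I) * c J

theorem con_act (X : Matrix B B ℂ) (σ : (κ ⊕ κ → B) → ℂ) (c : (κ → B) → ℂ) :
    con (act X σ) c = act X (con σ c) + con σ (act Xᵀ c) := by
  funext I
  rw [Pi.add_apply]
  unfold con
  rw [← sum_act_mul X (fun J => σ (Sum.elim J I)) c]
  have h1 : act X (fun I => ∑ J, σ (Sum.elim J I) * c J) I =
      ∑ J, (∑ k, ∑ j, X j (I k) * σ (Sum.elim J (Function.update I k j))) * c J := by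
    have e : (fun I => ∑ J, σ (Sum.elim J I) * c J) =
        ∑ J, c J • (fun I => σ (Sum.elim J I)) := by
      funext I
      rw [Finset.sum_apply]
      exact sum_congr rfl fun J _ => by rw [Pi.smul_apply, smul_eq_mul, mul_comm]
    have e2 : ∀ s : Finset (κ → B), act X (∑ J ∈ s, c J • (fun I => σ (Sum.elim J I))) =
        ∑ J ∈ s, c J • act X (fun I => σ (Sum.elim J I)) := by
      intro s
      induction s using Finset.induction_on with
      | empty => rw [sum_empty, sum_empty, act_zero_right]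
      | insert a s ha ih => rw [sum_insert ha, sum_insert ha, act_add_right, act_smul_right, ih]
    rw [e, e2, Finset.sum_apply]
    exact sum_congr rfl fun J _ => by rw [Pi.smul_apply, smul_eq_mul, mul_comm]; rfl
  rw [h1, ← sum_add_distrib]
  refine sum_congr rfl fun J _ => ?_
  rw [← add_mul]
  congr 1
  unfold act
  rw [Fintype.sum_sum_type, add_comm]
  congr 1
  · refine sum_congr rfl fun k _ => sum_congr rfl fun j _ => ?_
    rw [Sum.elim_inr, Sum.update_elim_inr]
  · refine sum_congr rfl fun k _ => sum_congr rfl fun j _ => ?_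
    rw [Sum.elim_inl, Sum.update_elim_inl]

theorem con_eq_zero {σ : (κ ⊕ κ → B) → ℂ} (h : ∀ c, con σ c = 0) : σ = 0 := by
  funext T
  have h1 := congrFun (h (Pi.single (fun k => T (Sum.inl k)) 1)) (fun k => T (Sum.inr k))
  unfold con at h1
  rw [sum_eq_single (fun k => T (Sum.inl k))] at h1
  · rw [Pi.single_eq_same, mul_one] at h1
    rw [← Sum.elim_comp_inl_inr T]
    exact h1
  · intro J _ hJ
    rw [Pi.single_eq_of_ne hJ, mul_zero]
  · intro h
    exact absurd (mem_univ _) h

/-- Each linear map is a contraction. -/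
theorem exists_con (φ : ((κ → B) → ℂ) →ₗ[ℂ] ((κ → B) → ℂ)) :
    ∃ σ : (κ ⊕ κ → B) → ℂ, ∀ c, con σ c = φ c := by
  refine ⟨fun T => φ (Pi.single (fun k => T (Sum.inl k)) 1) (fun k => T (Sum.inr k)),
    fun c => ?_⟩
  have h1 : c = ∑ J, c J • (Pi.single J 1 : (κ → B) → ℂ) := by
    funext I
    rw [Finset.sum_apply]
    simp only [Pi.smul_apply, Pi.single_apply, smul_eq_mul, mul_ite, mul_one, mul_zero]
    rw [sum_ite_eq, if_pos (mem_univ _)]
  conv_rhs => rw [h1]
  rw [map_sum]
  funext I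
  rw [Finset.sum_apply]
  unfold con
  refine sum_congr rfl fun J _ => ?_
  rw [map_smul, Pi.smul_apply, smul_eq_mul, mul_comm]
  rfl

theorem act_pull_neg {Om X : Matrix B B ℂ} (hOm2 : Om * Om = -1) (hX : Xᵀ * Om + Om * X = 0)
    (c : (κ → B) → ℂ) :
    act Xᵀ (pull (fun _ => Om) c) = -pull (fun _ => Om) (act X c) := by
  have h1 : Om * (-Xᵀ) = X * Om := by
    have e : Xᵀ * Om = -(Om * X) := eq_neg_of_add_eq_zero_left hX
    calc Om * (-Xᵀ) = Om * Xᵀ * (Om * Om) := by rw [hOm2, mul_neg, mul_neg, mul_one]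
    _ = Om * (Xᵀ * Om) * Om := by simp only [Matrix.mul_assoc]
    _ = -(Om * Om * X * Om) := by
      rw [e, mul_neg, neg_mul]
      simp only [Matrix.mul_assoc]
    _ = X * Om := by rw [hOm2, neg_mul, one_mul, neg_mul, neg_neg]
  have h2 := act_pull (κ := κ) (A := fun _ => Om) (X := X) (Y := -Xᵀ) (fun _ => h1) c
  rw [act_neg_left] at h2
  rw [← h2, neg_neg]

/-- Equivariant projections, for Lie algebras closed under the conjugate transpose. -/
theorem exists_proj1 {L : Submodule ℂ (Matrix B B ℂ)} (hL : ∀ X ∈ L, Xᴴ ∈ L)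
    {U : Submodule ℂ ((κ → B) → ℂ)} (hU : Stb L U) :
    ∃ P : ((κ → B) → ℂ) →ₗ[ℂ] ((κ → B) → ℂ), (∀ c, P c ∈ U) ∧ (∀ u ∈ U, P u = u) ∧
      ∀ X ∈ L, ∀ c, P (act X c) = act X (P c) := by
  let e : EuclideanSpace ℂ (κ → B) ≃ₗ[ℂ] ((κ → B) → ℂ) := WithLp.linearEquiv 2 ℂ ((κ → B) → ℂ)
  have hip : ∀ v u : EuclideanSpace ℂ (κ → B), inner ℂ v u = ip (e v) (e u) := by
    intro v u
    rw [PiLp.inner_apply]
    unfold ip
    refine sum_congr rfl fun i _ => ?_
    rw [RCLike.inner_apply, mul_comm]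
    rfl
  let J : Submodule ℂ (EuclideanSpace ℂ (κ → B)) := U.comap e.toLinearMap
  have hmem : ∀ v, v ∈ J ↔ e v ∈ U := fun v => Iff.rfl
  refine ⟨e.toLinearMap ∘ₗ J.starProjection.toLinearMap ∘ₗ e.symm.toLinearMap, ?_, ?_, ?_⟩
  · intro c
    have h : J.starProjection (e.symm c) ∈ J := Submodule.coe_mem _
    exact (hmem _).1 h
  · intro u hu
    have h1 : J.starProjection (e.symm u) = e.symm u := by
      rw [Submodule.starProjection_eq_self_iff, hmem, LinearEquiv.apply_symm_apply]
      exact hu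
    change e (J.starProjection (e.symm u)) = u
    rw [h1, LinearEquiv.apply_symm_apply]
  · intro X hX c
    change e (J.starProjection (e.symm (act X c))) = act X (e (J.starProjection (e.symm c)))
    have h1 : J.starProjection (e.symm (act X c)) =
        e.symm (act X (e (J.starProjection (e.symm c)))) := by
      refine Submodule.eq_starProjection_of_mem_orthogonal ?_ ?_
      · rw [hmem, LinearEquiv.apply_symm_apply]
        have h : J.starProjection (e.symm c) ∈ J := Submodule.coe_mem _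
        exact hU X hX _ ((hmem _).1 h)
      · rw [Submodule.mem_orthogonal]
        intro v hv
        rw [hip, map_sub, LinearEquiv.apply_symm_apply, LinearEquiv.apply_symm_apply]
        have h2 : act X c - act X (e (J.starProjection (e.symm c))) =
            act X (c - e (J.starProjection (e.symm c))) := by
          rw [sub_eq_add_neg, sub_eq_add_neg, act_add_right, ← neg_one_smul ℂ (e _),
            act_smul_right, neg_one_smul]
        rw [h2, ← ip_act]
        have h3 : act Xᴴ (e v) ∈ U := hU _ (hL X hX) _ ((hmem _).1 hv)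
        have h4 := (Submodule.mem_orthogonal J _).1
          (Submodule.sub_starProjection_mem_orthogonal (K := J) (e.symm c))
          (e.symm (act Xᴴ (e v))) (by rw [hmem, LinearEquiv.apply_symm_apply]; exact h3)
        rw [hip, map_sub, LinearEquiv.apply_symm_apply, LinearEquiv.apply_symm_apply] at h4
        exact h4
    rw [h1, LinearEquiv.apply_symm_apply]

/-- Equivariant projections, for Lie algebras closed under the adjoint. -/
theorem exists_proj {L : Submodule ℂ (Matrix B B ℂ)} {S Si : Matrix B B ℂ} (hSi : Si * S = 1)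
    (hL : ∀ X ∈ L, Si * Siᴴ * Xᴴ * (Sᴴ * S) ∈ L)
    {U : Submodule ℂ ((κ → B) → ℂ)} (hU : Stb L U) :
    ∃ P : ((κ → B) → ℂ) →ₗ[ℂ] ((κ → B) → ℂ), (∀ c, P c ∈ U) ∧ (∀ u ∈ U, P u = u) ∧
      ∀ X ∈ L, ∀ c, P (act X c) = act X (P c) := by
  have hiS : S * Si = 1 := mul_eq_one_comm.1 hSi
  have hst : Stb (Lc L S Si) (U.map (pull fun _ => Si)) := by
    rintro Y hY _ ⟨c, hc, rfl⟩
    obtain ⟨X, hX, rfl⟩ := of_mem_Lc hY
    refine ⟨act X c, hU X hX c hc, ?_⟩
    exact (act_pull (fun _ => SiX_eq hSi X) c).symm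
  obtain ⟨P, h1, h2, h3⟩ := exists_proj1 (fun Y hY => Lc_adj hSi hL hY) hst
  have hback : ∀ c : (κ → B) → ℂ, pull (fun _ => S) (pull (fun _ => Si) c) = c := pull_back hSi
  refine ⟨(pull fun _ => S) ∘ₗ P ∘ₗ (pull fun _ => Si), ?_, ?_, ?_⟩
  · intro c
    obtain ⟨u, hu, h⟩ := h1 (pull (fun _ => Si) c)
    change pull (fun _ => S) (P (pull (fun _ => Si) c)) ∈ U
    rw [← h, hback]
    exact hu
  · intro u hu
    change pull (fun _ => S) (P (pull (fun _ => Si) u)) = u
    rw [h2 _ ⟨u, hu, rfl⟩, hback]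
  · intro X hX c
    change pull (fun _ => S) (P (pull (fun _ => Si) (act X c))) =
      act X (pull (fun _ => S) (P (pull (fun _ => Si) c)))
    rw [act_pull (A := fun _ => S) (X := S * X * Si) (Y := X) (fun _ => SX_eq hSi X),
      ← h3 _ (mem_Lc hX)]
    congr 2
    exact (act_pull (A := fun _ => Si) (X := X) (Y := S * X * Si) (fun _ => SiX_eq hSi X) c).symm

/-- The matrices in `Tk L` kill the invariant tensors in all sets of variables. -/
theorem Tk_kill {L : Submodule ℂ (Matrix B B ℂ)} {X : Matrix B B ℂ} (hX : X ∈ Tk L)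
    {σ : (κ → B) → ℂ} (h : ∀ Y ∈ L, act Y σ = 0) : act X σ = 0 := by
  let e : Fin (Fintype.card κ) ≃ κ := (Fintype.equivFin κ).symm
  have h1 : act X (fun I : Fin (Fintype.card κ) → B => σ (fun k => I (e.symm k))) = 0 := by
    refine hX _ _ fun Y hY => ?_
    rw [act_reindex e Y σ, h Y hY]
    rfl
  rw [act_reindex e X σ] at h1
  funext J
  have h2 := congrFun h1 (fun k => J (e k))
  simp only [Equiv.apply_symm_apply] at h2
  exact h2

theorem Tk_sp {L : Submodule ℂ (Matrix B B ℂ)} {Om : Matrix B B ℂ}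
    (hL : ∀ X ∈ L, Xᵀ * Om + Om * X = 0) {X : Matrix B B ℂ} (hX : X ∈ Tk L) :
    Xᵀ * Om + Om * X = 0 := by
  have h1 : act X (bilc Om) = 0 := by
    refine hX 2 _ fun Y hY => ?_
    funext I
    rw [act_bilc, hL Y hY]
    rfl
  ext i j
  have h2 := congrFun h1 ![i, j]
  rw [act_bilc] at h2
  exact h2

theorem t_STB : S_STB := by
  intro B _ _ L Om S Si _ hOm2 hsp hSi hL κ _ _ U hU
  obtain ⟨P, hP1, hP2, hP3⟩ := exists_proj hSi hL hU
  obtain ⟨σ, hσ⟩ := exists_con (P ∘ₗ pull (fun _ : κ => -Om))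
  have hb : ∀ c : (κ → B) → ℂ, pull (fun _ => -Om) (pull (fun _ => Om) c) = c := by
    intro c
    rw [pull_pull]
    have : (fun _ : κ => Om * -Om) = fun _ => (1 : Matrix B B ℂ) := by
      funext _
      rw [mul_neg, hOm2, neg_neg]
    rw [this, pull_one]
  have hb' : ∀ c : (κ → B) → ℂ, pull (fun _ => Om) (pull (fun _ => -Om) c) = c := by
    intro c
    rw [pull_pull]
    have : (fun _ : κ => -Om * Om) = fun _ => (1 : Matrix B B ℂ) := by
      funext _
      rw [neg_mul, hOm2, neg_neg]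
    rw [this, pull_one]
  have hP : ∀ c, con σ (pull (fun _ => Om) c) = P c := by
    intro c
    rw [hσ]
    change P (pull (fun _ => -Om) (pull (fun _ => Om) c)) = P c
    rw [hb]
  have key : ∀ X : Matrix B B ℂ, Xᵀ * Om + Om * X = 0 → ∀ c,
      con (act X σ) (pull (fun _ => Om) c) = act X (P c) - P (act X c) := by
    intro X hX c
    rw [con_act, hP, act_pull_neg hOm2 hX, ← hP (act X c), sub_eq_add_neg]
    congr 1
    funext I
    unfold con
    rw [Pi.neg_apply, ← sum_neg_distrib]
    exact sum_congr rfl fun J _ => by rw [Pi.neg_apply, mul_neg]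
  have hinv : ∀ Y ∈ L, act Y σ = 0 := by
    intro Y hY
    refine con_eq_zero fun c => ?_
    rw [← hb' c, key Y (hsp Y hY), hP3 Y hY, sub_self]
  intro X hX u hu
  have h1 := key X (Tk_sp hsp hX) u
  rw [Tk_kill hX hinv, hP2 u hu] at h1
  have h2 : con (0 : (κ ⊕ κ → B) → ℂ) (pull (fun _ => Om) u) = 0 := by
    funext I
    unfold con
    exact sum_eq_zero fun J _ => by rw [Pi.zero_apply, zero_mul]
  rw [h2] at h1
  rw [sub_eq_zero.1 h1.symm]
  exact hP1 _

end

end Pool.Agent.N134.HW
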